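import Pool.Agent.X183.AT.Unip

/-!
# Converse of the `Ω`-stability theorem: distal affine tori

`DiffM n N r = Diff^r(N)` with the topology `strongTop n N r` (`Pool/Agent/H718R2/G0.lean`);
`Omega`, `OmegaStable`, `Per`: nonwandering set, `Ω`-stability, periodic points
(`Pool/Agent/TH80/OMS/Defs.lean`, `SymDefs.lean`); `Rec`: recurrent points
(`Pool/Agent/Y504/CO/Stm5.lean`); `IsHyperbolicPer`: hyperbolic periodic points
(`Pool/Agent/Y504/CO/Rob.lean`); `FiniteNoCycle F`: `Ω(F)` is finite and there is no cycle of periodic
orbits (`Pool/Agent/TH80/OMS/CycDefs.lean`).
`W k = ℝ^k`; `act ψ w y` is `y` moved by the flows `ψ 0, …, ψ (k - 1)` for the times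
`w 0, …, w (k - 1)` (`Pool/Agent/X183/AT/Defs.lean`). `AffTorus n F k m ψ A L`: `L` is a nonempty
compact orbit of smooth flows of `N` which commute on `L`, periodic under `F`, and the return map
`F^m` is affine on `L` with linear part `A`. `IsDistalTorus n N F L`: `L` is such an orbit with more
than one point and all eigenvalues of `A` are roots of unity. `DistalRec n N r G`: `G` does not
decrease some smooth function `h`, and all recurrent points of `G` whose orbit consists of critical
points of `h`, with at most countably many exceptions, are periodic or lie on smooth closed curves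
which are periodic under `G` (`ClosedPts`) or on distal affine tori
of `G` (`Pool/Agent/X183/AT/Defs.lean`).
-/

set_option autoImplicit false

open scoped Manifold ContDiff Topology

universe u

namespace Pool.Agent.Results.MP_814647_an.DistalTori

open Pool.Agent.H718R2.G Pool.Agent.TH80.OMS Pool.Agent.X183.AT
open Pool.Agent.Y504.CO (IsHyperbolicPer)

/-- Let `N` be a closed manifold, `1 ≤ r ≤ ∞`, and let `F ∈ Diff^r(N)` be `Ω`-stable.

(1) `F` has no distal affine tori: no compact orbit `L` with more than one point of smooth flows of
`N` which commute on `L` is periodic under `F` with an affine return map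
`F^m (act w y) = act (A w) (F^m y)` whose linear part `A` has only roots of unity as eigenvalues
(nothing is assumed off `L`).

(2) Suppose that `F` is a limit in `Diff^r(N)` of diffeomorphisms `G` (for example `G = F`) which do
not decrease some smooth function `h` (depending on `G`, for example constant) and whose recurrent
points with orbits in the critical set of `h`, up to countably many, are periodic, or lie on smooth
closed curves which are periodic under `G`, or on distal affine tori of `G`. Then `F` satisfies
Axiom A and has no cycles: `Ω(F)` is finite, without cycles of periodic orbits, and consists of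
hyperbolic periodic points. -/
theorem result (n : ℕ) (N : Type u) [TopologicalSpace N] [T2Space N] [CompactSpace N]
    [ChartedSpace (V n) N] [IsManifold (𝓡 n) ∞ N] (r : ℕ∞) (hr : 1 ≤ r) (F : DiffM n N r)
    (hF : OmegaStable n N r F) :
    (∀ L : Set N, ¬ IsDistalTorus n N F L) ∧
    ((∀ U : Set (DiffM n N r), IsOpen[strongTop n N r] U → F ∈ U → ∃ G ∈ U, DistalRec n N r G) →
      FiniteNoCycle F ∧ ∀ p ∈ Omega F, IsHyperbolicPer n F p) :=
  ⟨fun _ hL => no_distal hr hF hL, fun hcl => limit_distal hr hF hcl⟩

end Pool.Agent.Results.MP_814647_an.DistalTori
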