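import Pool.Agent.X183.QP.Int

/-!
# Converse of the `Ω`-stability theorem: commuting flows and maps of integrable type

`DiffM n N r = Diff^r(N)` with the topology `strongTop n N r` (`Pool/Agent/H718R2/G0.lean`);
`Omega`, `OmegaStable`, `Per`: nonwandering set, `Ω`-stability, periodic points
(`Pool/Agent/TH80/OMS/Defs.lean`, `SymDefs.lean`); `Rec`: recurrent points
(`Pool/Agent/Y504/CO/Stm5.lean`); `IsHyperbolicPer`: hyperbolic periodic points
(`Pool/Agent/Y504/CO/Rob.lean`); `FiniteNoCycle F`: `Ω(F)` is finite and there is no cycle of periodic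
orbits (`Pool/Agent/TH80/OMS/CycDefs.lean`); `IsFlow`: smooth flow on `N`
(`Pool/Agent/TH290/CL/Flow.lean`).
`mv ψ w k y` is `y` moved by the flows `ψ 0, …, ψ (k - 1)` for the times `w 0, …, w (k - 1)`;
`Comm k ψ F univ`: these flows commute with each other and with `F`
(`Pool/Agent/X183/QP/Main.lean`). `IntegrableType n N G`: `G` commutes with commuting smooth flows
`ψ 0, …, ψ (k - 1)` of `N`, and for every recurrent point `x` of `G` the orbit of `x` under the flows
is compact and contains an iterate `G^j x`, `j ≥ 1` (`Pool/Agent/X183/QP/Int.lean`).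
-/

set_option autoImplicit false

open scoped Manifold ContDiff Topology
open Set

universe u

namespace Pool.Agent.Results.MP_814647_an.IntegrableMaps

open Pool.Agent.H718R2.G Pool.Agent.TH80.OMS Pool.Agent.X183.QP
open Pool.Agent.TH290.CL (IsFlow)
open Pool.Agent.Y504.CO (IsHyperbolicPer)

/-- Let `N` be a closed manifold, `1 ≤ r ≤ ∞`, and let `F ∈ Diff^r(N)` be `Ω`-stable.

(1) Let `ψ 0, …, ψ (k - 1)` be smooth flows of `N` which commute with each other and with `F`. Then
(a) the periodic points of `F` are stationary for these flows; (b) there is `δ > 0` such that all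
points `x` for which `F^q x`, for some `q ≥ 1`, is obtained by moving `x` with the flows for times of
absolute value at most `δ q`, are stationary; (c) if the orbit of `x` under the flows is compact and
contains `F^q x` for some `q ≥ 1`, then `x` is stationary.

(2) If `F` is a limit in `Diff^r(N)` of diffeomorphisms `G` of integrable type (for example `G = F`),
then `F` satisfies Axiom A and has no cycles; its nonwandering set is finite and consists of
hyperbolic periodic points. -/
theorem result (n : ℕ) (N : Type u) [TopologicalSpace N] [T2Space N] [CompactSpace N]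
    [ChartedSpace (V n) N] [IsManifold (𝓡 n) ∞ N] (r : ℕ∞) (hr : 1 ≤ r) (F : DiffM n N r)
    (hF : OmegaStable n N r F) :
    (∀ (k : ℕ) (ψ : ℕ → ℝ → N → N), (∀ i, IsFlow n N (ψ i)) → Comm k ψ F univ →
      (∀ x ∈ Per F, ∀ i < k, ∀ t, ψ i t x = x) ∧
      (∃ δ : ℝ, 0 < δ ∧ ∀ (x : N) (q : ℕ), 1 ≤ q → ∀ w : ℕ → ℝ, (∀ i < k, |w i| ≤ δ * q) →
        F^[q] x = mv ψ w k x → ∀ i < k, ∀ t, ψ i t x = x) ∧
      ∀ x : N, IsCompact (range fun w => mv ψ w k x) →
        (∃ q : ℕ, 1 ≤ q ∧ ∃ w, F^[q] x = mv ψ w k x) → ∀ i < k, ∀ t, ψ i t x = x) ∧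
    ((∀ U : Set (DiffM n N r), IsOpen[strongTop n N r] U → F ∈ U →
      ∃ G ∈ U, IntegrableType n N G) →
      FiniteNoCycle F ∧ ∀ p ∈ Omega F, IsHyperbolicPer n F p) := by
  refine ⟨fun k ψ hψ hc => ?_, fun hcl => limit_torus hr hF fun U hU hFU => ?_⟩
  · obtain ⟨δ, hδ, hdr⟩ := drift hr hF (m := 1) le_rfl hψ (L := univ) isCompact_univ
      (fun i h1 h2 => by omega) hc
    have hdr' : ∀ (x : N) (q : ℕ), 1 ≤ q → ∀ w : ℕ → ℝ, (∀ i < k, |w i| ≤ δ * q) →
        F^[q] x = mv ψ w k x → ∀ i < k, ∀ t, ψ i t x = x := fun x q hq w hw hx =>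
      hdr x (mem_univ x) q hq w hw (by rw [one_mul]; exact hx)
    refine ⟨fun x hx => ?_, ⟨δ, hδ, hdr'⟩, fun x hcp hex => ?_⟩
    · obtain ⟨q, hq, hx⟩ := hx
      refine hdr' x q hq (fun _ => 0) (fun i _ => ?_) ?_
      · rw [abs_zero]
        positivity
      · rw [mv_zero (fun i => (hψ i).zero)]
        exact hx
    · rcases orbit_case hψ hc hcp hex with h | ⟨L, hL, -⟩
      · exact h
      · exact absurd hL (no_torus hr hF)
  · obtain ⟨G, hGU, h⟩ := hcl U hU hFU
    exact ⟨G, hGU, torusRec_of_integrable h⟩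

end Pool.Agent.Results.MP_814647_an.IntegrableMaps
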