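import Pool.Agent.X183.PC.Main3

/-!
# Converse of the `Ω`-stability theorem: maps which preserve or permute the orbits of a flow

`DiffM n N r = Diff^r(N)` with the topology `strongTop n N r` (`Pool/Agent/H718R2/G0.lean`);
`Omega`, `OmegaStable`: nonwandering set, `Ω`-stability (`Pool/Agent/TH80/OMS/Defs.lean`);
`IsHyperbolicPer`: hyperbolic periodic points (`Pool/Agent/Y504/CO/Rob.lean`); `FiniteNoCycle F`:
`Ω(F)` is finite and there is no cycle of periodic orbits (`Pool/Agent/TH80/OMS/CycDefs.lean`);
`IsFlow n N ψ`: smooth flow on `N` (`Pool/Agent/TH290/CL/Flow.lean`).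
`PreservesOrbits n N G`: `G x = ψ (τ x) x` for some smooth flow `ψ` all of whose recurrent points
(`FlowRec`: recurrent in positive or in negative time) are periodic or stationary, and a continuous
function `τ` (`Pool/Agent/X183/PC/Main2.lean`). `PermutesOrbits n N G`: all orbits of the smooth flow
`ψ` are closed (or points), `G` maps orbits into orbits, and every orbit which is recurrent under `G`
is periodic under `G` (`Pool/Agent/X183/PC/Main3.lean`).
-/

set_option autoImplicit false

open scoped Manifold ContDiff Topology

universe u

namespace Pool.Agent.Results.MP_814647_an.OrbitPreserving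

open Pool.Agent.H718R2.G Pool.Agent.TH80.OMS Pool.Agent.X183.PC
open Pool.Agent.Y504.CO (IsHyperbolicPer)

/-- Let `N` be a closed manifold, `1 ≤ r ≤ ∞`, and let `F ∈ Diff^r(N)` be `Ω`-stable. Suppose that
`F` is a limit in `Diff^r(N)` of diffeomorphisms `G` (for example `G = F`) such that one of the
following holds for a smooth flow `ψ` (which depends on `G`).

(a) `G` preserves every orbit of `ψ`: `G x = ψ (τ x) x` with `τ` continuous, and all recurrent points
of `ψ` are periodic or stationary (for instance `ψ` is gradient-like, or a Morse-Smale flow, or a
circle action; for instance `G` is a time map of such a flow).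

(b) All orbits of `ψ` are closed, `G` permutes them, and every orbit which is recurrent under `G` is
periodic under `G` (for instance `G` is a skew product with circle fibres over a map of the base whose
recurrent points are periodic, with arbitrary maps on the fibres).

Then `F` satisfies Axiom A and has no cycles; its nonwandering set is finite and consists of
hyperbolic periodic points. -/
theorem result (n : ℕ) (N : Type u) [TopologicalSpace N] [T2Space N] [CompactSpace N]
    [ChartedSpace (V n) N] [IsManifold (𝓡 n) ∞ N] (r : ℕ∞) (hr : 1 ≤ r) (F : DiffM n N r)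
    (hF : OmegaStable n N r F)
    (hcl : ∀ U : Set (DiffM n N r), IsOpen[strongTop n N r] U → F ∈ U →
      ∃ G ∈ U, PreservesOrbits n N G ∨ PermutesOrbits n N G) :
    FiniteNoCycle F ∧ ∀ p ∈ Omega F, IsHyperbolicPer n F p := by
  refine limit_main hr hF fun U hU hFU => ?_
  obtain ⟨G, hGU, h⟩ := hcl U hU hFU
  refine ⟨G, hGU, ?_⟩
  rcases h with h | h
  · exact curveRec_of_rec (rec_of_preserves G.injective h)
  · exact curveRec_of_rec (rec_of_permutes h)

end Pool.Agent.Results.MP_814647_an.OrbitPreserving
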