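import Pool.Agent.X84.Tor.Main

/-!
# `Ω`-stable limits of maps which do not decrease a function and act on its critical points by an
element of a compact abelian group of diffeomorphisms

Definitions: `TorusAction`, `TorusMonotone`, `TorusFlow` in `Pool/Agent/X84/Tor/Defs.lean`,
`SmoothFields`, `IsFlowOf` in `Pool/Agent/X84/Fm/Defs.lean`, `IsHyperbolicPer` in
`Pool/Agent/Y504/CO/Rob.lean`, `FiniteNoCycle` in `Pool/Agent/TH80/OMS/CycDefs.lean`, the topology
of `Diff^r` in `Pool/Agent/H718R2/G0.lean`.
-/

set_option autoImplicit false

open scoped Manifold ContDiff Topology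

universe u

namespace Pool.Agent.Results.MP_814647_an.TorusActions

open Pool.Agent.H718R2.G Pool.Agent.TH80.OMS Pool.Agent.Y504.CO Pool.Agent.X84.Tor

/-- Let `N` be a closed manifold and `1 ≤ r ≤ ∞`. An `Ω`-stable diffeomorphism in the closure in
`Diff^r(N)` of the set of diffeomorphisms `G` which do not decrease a `C^∞` function `h` and act on
the critical points of `h` by an element `P ∘ ρ_t` of a compact abelian group (`ρ` a torus action
preserving `h`, `P` of finite order), up to countably many points, satisfies Axiom A and has no
cycles: its nonwandering set is finite and consists of hyperbolic periodic points. The time maps of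
fields `Y + Z` are of this type, if `dh(Y) ≥ 0`, `Y` vanishes at the critical points of `h` and `Z`
generates a one-parameter group `ρ_{ut}` of a torus action `ρ` preserving `h`. -/
theorem result (n : ℕ) (N : Type u) [TopologicalSpace N] [T2Space N] [CompactSpace N]
    [ChartedSpace (V n) N] [IsManifold (𝓡 n) ∞ N] (r : ℕ∞) (hr : 1 ≤ r) :
    (∀ F : DiffM n N r, OmegaStable n N r F →
      (∀ U : Set (DiffM n N r), IsOpen[strongTop n N r] U → F ∈ U → ∃ G ∈ U, TorusMonotone (V n) G) →
        FiniteNoCycle F ∧ ∀ p ∈ Omega F, IsHyperbolicPer n F p) ∧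
    ∀ F : DiffM n N r, TorusFlow (V n) F → TorusMonotone (V n) F :=
  ⟨fun _ hF hcl => stable hr hF hcl, fun _ hF => flow_monotone hF⟩

end Pool.Agent.Results.MP_814647_an.TorusActions
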